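import Pool.Agent.MP_dd7031_mp.LocalInt
import Pool.Agent.Lib.helper99.SmoothSum

open Set Filter Metric
open scoped Topology ContDiff

namespace Pool.Agent.Results.MP_dd7031_mp.SmoothIntegrable

open Pool.Agent.KH Pool.Agent.H99

theorem linInd_of {φ₁ φ₂ φ₃ : Phase →L[ℝ] ℝ} {ξ v₂ v₃ : Phase} (h1 : φ₁ ξ = 0) (h2 : φ₂ ξ = 0)
    (h3 : φ₃ ξ ≠ 0) (h4 : φ₂ v₂ = 0) (h5 : φ₁ v₂ ≠ 0) (h6 : φ₂ v₃ ≠ 0) :
    LinearIndependent ℝ ![φ₁, φ₂, φ₃] := by
  rw [Fintype.linearIndependent_iff]
  intro g hg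
  have e : ∀ v, g 0 * φ₁ v + g 1 * φ₂ v + g 2 * φ₃ v = 0 := by
    intro v
    have := congrArg (fun φ : Phase →L[ℝ] ℝ => φ v) hg
    simpa [Fin.sum_univ_three] using this
  have g2 : g 2 = 0 := by
    have := e ξ
    rw [h1, h2, mul_zero, mul_zero, zero_add, zero_add] at this
    exact (mul_eq_zero.1 this).resolve_right h3
  have g0 : g 0 = 0 := by
    have := e v₂
    rw [h4, g2, mul_zero, zero_mul, add_zero, add_zero] at this
    exact (mul_eq_zero.1 this).resolve_right h5
  have g1 : g 1 = 0 := by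
    have := e v₃
    rw [g0, g2, zero_mul, zero_mul, add_zero, zero_add] at this
    exact (mul_eq_zero.1 this).resolve_right h6
  intro i
  fin_cases i
  · exact g0
  · exact g1
  · exact g2

theorem WG_nonempty : WG.Nonempty := by
  have h1 : (![1, 0, 0, 0, 1, 0] : Phase) ∈ W ∨ (![1, 0, 0, 0, 2, 0] : Phase) ∈ W := by
    have hps : ∀ a : ℝ, (![1, 0, 0, 0, a, 0] : Phase) ∈ PhaseSpace := by
      rintro a ⟨h, -, -⟩
      have : (1 : ℝ) = 0 := h
      exact one_ne_zero this
    by_contra hcon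
    push Not at hcon
    have hH : ∀ a : ℝ, H ![1, 0, 0, 0, a, 0] = 1 / 2 * a ^ 2 -
        1 / (8 * Real.pi * √((1 ^ 2 + 0 ^ 2) ^ 2 + 16 * 0 ^ 2)) := by
      intro a
      show 1 / 2 * ((0 - 1 / 2 * 0 * 0) ^ 2 + (a + 1 / 2 * 1 * 0) ^ 2) -
        1 / (8 * Real.pi * √((1 ^ 2 + 0 ^ 2) ^ 2 + 16 * 0 ^ 2)) = _
      ring
    have e1 : H ![1, 0, 0, 0, 1, 0] = 0 := by
      by_contra h; exact hcon.1 ⟨hps 1, h⟩
    have e2 : H ![1, 0, 0, 0, 2, 0] = 0 := by
      by_contra h; exact hcon.2 ⟨hps 2, h⟩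
    rw [hH] at e1 e2
    linarith
  have h2 : (closure WG).Nonempty := by
    rcases h1 with h | h
    · exact ⟨_, W_subset_closure_WG h⟩
    · exact ⟨_, W_subset_closure_WG h⟩
  exact closure_nonempty_iff.1 h2

/-- The Kepler–Heisenberg system is completely integrable of class `C^∞` on `{H ≠ 0}`. -/
theorem result : CompletelyIntegrable ∞ W := by
  -- a countable dense set of good points
  obtain ⟨t, htW, htc, htd⟩ :=
    (TopologicalSpace.IsSeparable.of_separableSpace WG).exists_countable_dense_subset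
  have htne : t.Nonempty := by
    obtain ⟨u, hu⟩ := WG_nonempty
    exact closure_nonempty_iff.1 ⟨u, htd hu⟩
  obtain ⟨u, hut⟩ := htc.exists_eq_range htne
  have huG : ∀ k, u k ∈ WG := fun k => htW (hut ▸ mem_range_self k)
  have huW : ∀ k, u k ∈ W := fun k => (huG k).1
  have hdense : W ⊆ closure (range u) := by
    rw [← hut]
    exact W_subset_closure_WG.trans (closure_minimal htd isClosed_closure)
  choose f hf hξ using fun k => exists_local_phase (huG k)
  obtain ⟨G, hG1, hG2, hG3⟩ := exists_smooth_sum isOpen_W (fun k => pull (f k))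
    (fun k => fun x hx => (pull_smooth (hf k) hx).contDiffWithinAt) u (fun k => Xi (u k)) huW
    (fun k => by rw [hξ k]; exact one_ne_zero)
  have hzero : ∀ x ∈ W, ∀ v : Phase, (∀ k, fderiv ℝ (pull (f k)) x v = 0) →
      fderiv ℝ G x v = 0 := by
    intro x hx v hv
    obtain ⟨a, ha1, ha2⟩ := hG2 x hx
    have h3 := (ha1.hasSum.mapL (ContinuousLinearMap.apply ℝ ℝ v)).tsum_eq
    have h5 : (∑' j, a j • fderiv ℝ (pull (f j)) x) v =
      ContinuousLinearMap.apply ℝ ℝ v (∑' j, a j • fderiv ℝ (pull (f j)) x) := rfl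
    rw [ha2, h5, ← h3]
    have : (fun j => ContinuousLinearMap.apply ℝ ℝ v (a j • fderiv ℝ (pull (f j)) x)) =
        fun _ => (0 : ℝ) := by
      funext j
      simp only [ContinuousLinearMap.apply_apply, smul_apply, smul_eq_mul, hv j, mul_zero]
    rw [this, tsum_zero]
  have hGH : ∀ x ∈ W, poisson G H x = 0 := by
    intro x hx
    rw [poisson_eq, ham_H hx.1]
    exact hzero x hx _ fun k => fderiv_pull_VH (hf k) hx
  have hGP : ∀ x ∈ W, poisson G pth x = 0 := by
    intro x hx
    rw [poisson_eq, ham_pth]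
    exact hzero x hx _ fun k => fderiv_pull_VP (hf k) hx
  have hHP : ∀ x ∈ W, poisson H pth x = 0 := by
    intro x hx
    rw [poisson_eq, ham_pth, fderiv_H hx.1, dH_VP]
  have hself : ∀ (g : Phase → ℝ) (x : Phase), poisson g g x = 0 := by
    intro g x
    have := poisson_antisymm g g x
    linarith
  set F : Fin 3 → Phase → ℝ := ![H, pth, G] with hF
  have hFs : ∀ i, ContDiffOn ℝ ∞ (F i) W := by
    intro i
    fin_cases i
    · exact fun x hx => (contDiffAt_H hx.1).contDiffWithinAt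
    · exact contDiff_pth.contDiffOn
    · exact hG1
  have hcomm : ∀ i j, ∀ x ∈ W, poisson (F i) (F j) x = 0 := by
    intro i j x hx
    fin_cases i <;> fin_cases j
    · exact hself H x
    · exact hHP x hx
    · show poisson H G x = 0
      rw [poisson_antisymm, hGH x hx, neg_zero]
    · show poisson pth H x = 0
      rw [poisson_antisymm, hHP x hx, neg_zero]
    · exact hself pth x
    · show poisson pth G x = 0
      rw [poisson_antisymm, hGP x hx, neg_zero]
    · exact hGH x hx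
    · exact hGP x hx
    · exact hself G x
  refine ⟨F, hFs, fun i x hx => hcomm i 0 x hx, hcomm,
    {x | x ∈ W ∧ LinearIndependent ℝ (fun i => fderiv ℝ (F i) x)}, ?_, fun x hx => hx.1, ?_,
    fun x hx => hx.2⟩
  · have hcont : ContinuousOn (fun x => fun i => fderiv ℝ (F i) x) W :=
      continuousOn_pi.2 fun i => (hFs i).continuousOn_fderiv_of_isOpen isOpen_W (by simp)
    exact hcont.isOpen_inter_preimage isOpen_W isOpen_setOfPred_linearIndependent
  · refine hdense.trans (closure_mono ?_)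
    rintro _ ⟨k, rfl⟩
    refine ⟨huW k, ?_⟩
    have e : (fun i => fderiv ℝ (F i) (u k)) =
        ![fderiv ℝ H (u k), fderiv ℝ pth (u k), fderiv ℝ G (u k)] := by
      funext i
      fin_cases i <;> rfl
    rw [e]
    have hp := (huG k).2.1
    refine linInd_of (ξ := Xi (u k)) (v₂ := VD (u k)) (v₃ := V3 (u k)) (dH_Xi (huG k))
      (dP_Xi (u k)) (hG3 k) ?_ ?_ ?_
    · rw [fderiv_pth, dP_VD]
    · rw [fderiv_H (huW k).1, dH_VD (huW k).1]
      exact mul_ne_zero (by norm_num) (huW k).2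
    · rw [fderiv_pth, dP_V3]
      exact (r2_pos_of_pth hp).ne'

end Pool.Agent.Results.MP_dd7031_mp.SmoothIntegrable
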